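import Mathlib

open Set Topology

namespace Pool.Agent.Results.MP_0c5bac_gt.BaireExtension

variable {X Y : Type*} [TopologicalSpace X] [TopologicalSpace Y]

/-- Admissible families: open sets of `X` whose images are pairwise disjoint and whose images
together are dense in the image of `W`. -/
structure Adm (f : X → Y) (W : Set X) (F : Set (Set X)) : Prop where
  isOpen : ∀ U ∈ F, IsOpen U
  disj : ∀ U ∈ F, ∀ V ∈ F, ∀ y, y ∈ f '' U → y ∈ f '' V → U = V
  dense : f '' W ⊆ closure (⋃ U ∈ F, f '' U)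

theorem exists_next [RegularSpace X] {f : X → Y} (hf : Continuous f)
    {W : Set X} {F : Set (Set X)} (hF : Adm f W F)
    {D : Set X} (hD : IsOpen D) (hDd : Dense D) :
    ∃ F' : Set (Set X), Adm f W F' ∧ ∀ U' ∈ F', ∃ U ∈ F, closure U' ⊆ U ∩ D := by
  classical
  let S : Set (Set (Set X)) := {𝓖 | (∀ U' ∈ 𝓖, IsOpen U' ∧ ∃ U ∈ F, closure U' ⊆ U ∩ D) ∧
    (∀ U ∈ 𝓖, ∀ V ∈ 𝓖, ∀ y, y ∈ f '' U → y ∈ f '' V → U = V)}
  obtain ⟨M, hM⟩ := zorn_subset S (by
    intro c hc hchain
    refine ⟨⋃₀ c, ⟨?_, ?_⟩, fun s hs => subset_sUnion_of_mem hs⟩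
    · rintro U' ⟨s, hs, hU'⟩
      exact (hc hs).1 U' hU'
    · rintro U ⟨s, hs, hU⟩ V ⟨t, ht, hV⟩ y hyU hyV
      rcases hchain.total hs ht with h | h
      · exact (hc ht).2 U (h hU) V hV y hyU hyV
      · exact (hc hs).2 U hU V (h hV) y hyU hyV)
  have hMS : M ∈ S := hM.prop
  refine ⟨M, ⟨fun U hU => (hMS.1 U hU).1, hMS.2, ?_⟩, fun U hU => (hMS.1 U hU).2⟩
  intro y hy
  by_contra hcon
  set O : Set Y := (closure (⋃ U ∈ M, f '' U))ᶜ with hO
  have hOo : IsOpen O := isClosed_closure.isOpen_compl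
  have hyO : y ∈ O := hcon
  have hy2 : y ∈ closure (⋃ U ∈ F, f '' U) := hF.dense hy
  obtain ⟨z, hzO, hz⟩ := mem_closure_iff.1 hy2 O hOo hyO
  simp only [mem_iUnion] at hz
  obtain ⟨U, hU, x, hxU, rfl⟩ := hz
  have hopen : IsOpen (U ∩ f ⁻¹' O) := (hF.isOpen U hU).inter (hOo.preimage hf)
  obtain ⟨x', hx', hx'D⟩ := hDd.inter_open_nonempty _ hopen ⟨x, hxU, hzO⟩
  have hopen2 : IsOpen ((U ∩ f ⁻¹' O) ∩ D) := hopen.inter hD
  obtain ⟨V, hVo, hx'V, hVsub⟩ : ∃ V : Set X, IsOpen V ∧ x' ∈ V ∧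
      closure V ⊆ (U ∩ f ⁻¹' O) ∩ D := by
    obtain ⟨C, hC, hCc, hCs⟩ := exists_mem_nhds_isClosed_subset (hopen2.mem_nhds ⟨hx', hx'D⟩)
    refine ⟨interior C, isOpen_interior, mem_interior_iff_mem_nhds.2 hC, ?_⟩
    exact (closure_minimal interior_subset hCc).trans hCs
  have hVO : ∀ y ∈ f '' V, y ∈ O := by
    rintro _ ⟨v, hv, rfl⟩
    exact (hVsub (subset_closure hv)).1.2
  have hnot : ∀ U' ∈ M, ∀ y ∈ f '' U', y ∉ O := by
    intro U' hU' y hy hyO
    exact hyO (subset_closure (mem_biUnion hU' hy))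
  have hins : insert V M ∈ S := by
    refine ⟨?_, ?_⟩
    · intro U' hU'
      rcases hU' with rfl | hU'
      · exact ⟨hVo, U, hU, fun z hz => ⟨(hVsub hz).1.1, (hVsub hz).2⟩⟩
      · exact hMS.1 U' hU'
    · intro A hA B hB y hyA hyB
      rcases hA with rfl | hA <;> rcases hB with rfl | hB
      · rfl
      · exact absurd (hVO y hyA) (hnot B hB y hyB)
      · exact absurd (hVO y hyB) (hnot A hA y hyA)
      · exact hMS.2 A hA B hB y hyA hyB
  have hVM : V ∈ M := hM.le_of_ge hins (subset_insert V M) (mem_insert V M)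
  exact hnot V hVM (f x') ⟨x', hx'V, rfl⟩ (hVO _ ⟨x', hx'V, rfl⟩)

/-- An open continuous map with compact fibres from a regular space onto (into) a Baire space
has Baire domain. -/
theorem baireSpace_of_isOpenMap_of_compact_fibres [RegularSpace X] [BaireSpace Y] {f : X → Y}
    (hf : Continuous f) (ho : IsOpenMap f) (hK : ∀ y, IsCompact (f ⁻¹' {y})) :
    BaireSpace X := by
  classical
  refine ⟨fun D hDo hDd => ?_⟩
  rw [dense_iff_inter_open]
  intro W hW hWne
  have step : ∀ (n : ℕ) (F : {F : Set (Set X) // Adm f W F}),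
      ∃ F' : {F : Set (Set X) // Adm f W F}, ∀ U' ∈ F'.1, ∃ U ∈ F.1, closure U' ⊆ U ∩ D n := by
    intro n F
    obtain ⟨F', h1, h2⟩ := exists_next hf F.2 (hDo n) (hDd n)
    exact ⟨⟨F', h1⟩, h2⟩
  choose nxt hnxt using step
  have h0 : Adm f W {W} := by
    refine ⟨?_, ?_, ?_⟩
    · rintro U rfl; exact hW
    · rintro U rfl V rfl y _ _; rfl
    · intro y hy
      apply subset_closure
      simpa using hy
  let Fam : ℕ → {F : Set (Set X) // Adm f W F} := fun n => Nat.rec ⟨{W}, h0⟩ (fun n F => nxt n F) n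
  have hFam0 : (Fam 0).1 = {W} := rfl
  have hFamS : ∀ n, ∀ U' ∈ (Fam (n+1)).1, ∃ U ∈ (Fam n).1, closure U' ⊆ U ∩ D n := by
    intro n
    exact hnxt n (Fam n)
  let O : ℕ → Set Y := fun n => (⋃ U ∈ (Fam n).1, f '' U) ∪ (closure (f '' W))ᶜ
  have hOo : ∀ n, IsOpen (O n) := by
    intro n
    refine IsOpen.union ?_ isClosed_closure.isOpen_compl
    exact isOpen_biUnion fun U hU => ho U ((Fam n).2.isOpen U hU)
  have hOd : ∀ n, Dense (O n) := by
    intro n y
    by_cases hy : y ∈ closure (f '' W)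
    · have : closure (f '' W) ⊆ closure (⋃ U ∈ (Fam n).1, f '' U) :=
        closure_minimal (Fam n).2.dense isClosed_closure
      exact closure_mono subset_union_left (this hy)
    · exact subset_closure (Or.inr hy)
  have hdense : Dense (⋂ n, O n) := dense_iInter_of_isOpen hOo hOd
  obtain ⟨y, hyW, hyO⟩ := hdense.inter_open_nonempty (f '' W) (ho W hW) (hWne.image f)
  have hyF : ∀ n, ∃ U ∈ (Fam n).1, y ∈ f '' U := by
    intro n
    have := mem_iInter.1 hyO n
    rcases this with h | h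
    · simpa only [mem_iUnion, exists_prop] using h
    · exact absurd (subset_closure hyW) h
  choose U hU hyU using hyF
  have hchain : ∀ n, closure (U (n+1)) ⊆ U n ∩ D n := by
    intro n
    obtain ⟨V, hV, hVs⟩ := hFamS n (U (n+1)) (hU (n+1))
    have hyV : y ∈ f '' V := by
      obtain ⟨x, hx, hxy⟩ := hyU (n+1)
      exact ⟨x, (hVs (subset_closure hx)).1, hxy⟩
    have : V = U n := (Fam n).2.disj V hV (U n) (hU n) y hyV (hyU n)
    rw [← this]
    exact hVs
  have hU0 : U 0 = W := by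
    have := hU 0
    rw [hFam0] at this
    exact this
  obtain ⟨x, hx⟩ : (⋂ n, (closure (U (n+1)) ∩ f ⁻¹' {y})).Nonempty := by
    have hK' : ∀ n, IsCompact (closure (U (n+1)) ∩ f ⁻¹' {y}) := fun n =>
      (hK y).inter_left isClosed_closure
    have hne : ∀ n, (closure (U (n+1)) ∩ f ⁻¹' {y}).Nonempty := by
      intro n
      obtain ⟨x, hx, hxy⟩ := hyU (n+1)
      exact ⟨x, subset_closure hx, hxy⟩
    have hanti : ∀ n, closure (U (n+1+1)) ⊆ closure (U (n+1)) := fun n =>
      ((hchain (n+1)).trans inter_subset_left).trans subset_closure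
    -- intersect closed sets with one compact set
    have hcl : ∀ n, IsClosed (closure (U (n+1))) := fun n => isClosed_closure
    have key := (hK y).inter_iInter_nonempty (fun n => closure (U (n+1))) hcl (by
      intro s
      have hmono : Antitone (fun n => closure (U (n+1))) := antitone_nat_of_succ_le hanti
      obtain ⟨N, hN⟩ : ∃ N, ∀ i ∈ s, i ≤ N := ⟨s.sup id, fun i hi => Finset.le_sup (f := id) hi⟩
      obtain ⟨x, hx, hxy⟩ := hne N
      refine ⟨x, hxy, ?_⟩
      simp only [mem_iInter]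
      intro i hi
      exact hmono (hN i hi) hx)
    obtain ⟨x, hxy, hx⟩ := key
    refine ⟨x, mem_iInter.2 fun n => ⟨mem_iInter.1 hx n, hxy⟩⟩
  refine ⟨x, ?_, ?_⟩
  · have := (hchain 0 (mem_iInter.1 hx 0).1).1
    rwa [hU0] at this
  · exact mem_iInter.2 fun n => (hchain n (mem_iInter.1 hx n).1).2

/-- **Q1, affirmative answer.**  Let `G` be an arbitrary topological group (no separation axiom)
and `K` a compact normal subgroup such that the quotient group `G ⧸ K` (with the quotient topology)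
is a Baire space.  Then `G` is a Baire space. -/
theorem result : ∀ (G : Type*) [Group G] [TopologicalSpace G] [IsTopologicalGroup G]
    (K : Subgroup G) [K.Normal], IsCompact (K : Set G) → BaireSpace (G ⧸ K) → BaireSpace G := by
  intro G _ _ _ K _ hK hB
  refine baireSpace_of_isOpenMap_of_compact_fibres (f := (QuotientGroup.mk : G → G ⧸ K))
    QuotientGroup.continuous_mk QuotientGroup.isOpenMap_coe ?_
  intro y
  obtain ⟨g, rfl⟩ := QuotientGroup.mk_surjective y
  have : (QuotientGroup.mk : G → G ⧸ K) ⁻¹' {(g : G ⧸ K)} = (fun k => g * k) '' (K : Set G) := by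
    ext x
    simp only [mem_preimage, mem_singleton_iff, mem_image, SetLike.mem_coe]
    constructor
    · intro h
      exact ⟨g⁻¹ * x, QuotientGroup.eq.1 h.symm, by group⟩
    · rintro ⟨k, hk, rfl⟩
      exact (QuotientGroup.eq.2 (by simpa using hk)).symm
  rw [this]
  exact hK.image (continuous_const_mul g)

end Pool.Agent.Results.MP_0c5bac_gt.BaireExtension
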